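import Pool.Agent.RCM.Stmts

/-!
# Squad RCM, row ADD: one more colour gives `z` more elements
-/

set_option autoImplicit false

namespace Pool.Agent.RCM.H31

open Set

universe u

/-- a forbidden colour which is unused at `T` is unused at all reachable states -/
theorem unused {E : Type u} {K : Type} {M N : Matroid E} {κ : E → K} {P : Set E} {X : Set K}
    {a : K} {T T' : Set E} (hT : Rc M N κ P (insert a X) T T') (ha : a ∉ κ '' T) :
    a ∉ κ '' T' := by
  induction hT with
  | refl => exact ha
  | tail _ hm ih =>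
    obtain ⟨x, y, hy, hx1, hx2, hx3, hx4, rfl⟩ := hm
    rintro ⟨e, he, hea⟩
    rcases he with he | he
    · subst he
      exact hx2 (by rw [hea]; exact mem_insert _ _)
    · exact ih ⟨e, he.1, hea⟩

/-- an independent set in the closure of `A` has at most as many elements as `A` -/
theorem ncard_le {E : Type u} [Finite E] {M : Matroid E} {I A : Set E} (hI : M.Indep I)
    (h : I ⊆ M.closure A) : I.ncard ≤ A.ncard := by
  have h1 : I.encard ≤ M.eRk (M.closure A) := hI.encard_le_eRk_of_subset h
  rw [M.eRk_closure_eq] at h1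
  exact ENat.toNat_le_toNat (h1.trans (M.eRk_le_encard A)) (toFinite A).encard_lt_top.ne

/-- ADD -/
theorem add (unc : UncStmt.{u}) (lsd : LsdStmt.{u}) (mon : MonStmt.{u}) : AddStmt.{u} := by
  intro E K _ _ M N κ s t P X T a z hc hm hs haX haT hz
  have hst' : St M N κ P (insert a X) t T := ⟨hs.ri, hs.card, hs.fr, hs.dj, fun e he h => by
    rcases h with h | h
    · exact haT ⟨e, he, h⟩
    · exact hs.col e he h⟩
  have hS'T : Sta M N κ P (insert a X) T ⊆ T := fun e he => he T Relation.ReflTransGen.refl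
  obtain ⟨l1, l2⟩ := lsd E K M N κ s t P X T hc hm hs
  have hmon := mon E K M N κ P X (insert a X) T (subset_insert _ _)
  have hcov : κ ⁻¹' {a} ⊆ (κ ⁻¹' {a} ∩ Ph M N κ P X T) ∪
      (κ ⁻¹' {a} ∩ M.closure (Sta M N κ P (insert a X) T ∪ P)) := by
    intro x hx
    by_cases h : x ∈ M.closure (Sta M N κ P (insert a X) T ∪ P)
    · exact Or.inr ⟨hx, h⟩
    · refine Or.inl ⟨hx, ?_⟩
      by_contra h2
      apply h
      apply unc E K M N κ s t P (insert a X) T x hc hm hst'
      intro T' hT'
      have hx' : κ x = a := hx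
      refine l1 T' x (hmon.1 T' hT') (by rw [hx']; exact haX) ?_ h2
      rw [hx']
      exact unused hT' haT
  have h1 : s ≤ (κ ⁻¹' {a}).ncard := hc.card a
  have h2 : (κ ⁻¹' {a}).ncard ≤ (κ ⁻¹' {a} ∩ Ph M N κ P X T).ncard +
      (κ ⁻¹' {a} ∩ M.closure (Sta M N κ P (insert a X) T ∪ P)).ncard :=
    (ncard_le_ncard hcov (toFinite _)).trans (ncard_union_le _ _)
  have h3 := l2 a
  have h4 : (κ ⁻¹' {a} ∩ M.closure (Sta M N κ P (insert a X) T ∪ P)).ncard ≤
      (Sta M N κ P (insert a X) T ∪ P).ncard :=
    ncard_le ((hc.indM a).subset inter_subset_left) inter_subset_right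
  have h5 := ncard_union_le (Sta M N κ P (insert a X) T) P
  have h6 : (T \ Sta M N κ P (insert a X) T).ncard + (Sta M N κ P (insert a X) T).ncard =
      T.ncard := ncard_sdiff_add_ncard_of_subset hS'T (toFinite _)
  have h7 := hs.card
  omega

end Pool.Agent.RCM.H31
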